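import Mathlib

/-!
Window recursion for the coefficients of the powers of the Thue-Morse product: the algorithm.
-/

namespace KS7_53.TM

/-- inner product of two lists (of the shorter length) -/
def dot : List ℕ → List ℕ → ℕ
  | [], _ => 0
  | _ :: _, [] => 0
  | a :: as, b :: bs => a * b + dot as bs

/-- one step of the window recursion -/
def go (Q : ℕ) (be bo : List ℕ) : ℕ → List ℕ → List ℕ
  | 0, _ => []
  | r + 1, u => (Q - dot bo u % Q) :: (dot be u % Q) :: go Q be bo r u.tail

/-- list of binomial coefficients `C(n, j), C(n, j+1), …` -/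
def bl (n : ℕ) : ℕ → ℕ → ℕ → List ℕ
  | 0, _, _ => []
  | len + 1, j, c => c :: bl n len (j + 1) (c * (n - j) / (j + 1))

def evens : List ℕ → List ℕ
  | [] => []
  | [a] => [a]
  | a :: _ :: l => a :: evens l

def odds : List ℕ → List ℕ
  | [] => []
  | [_] => []
  | _ :: b :: l => b :: odds l

def run (Q K : ℕ) (be bo : List ℕ) : ℕ → List ℕ
  | 0 => [1]
  | e + 1 => go Q be bo (min (K / 2) (2 ^ e)) (run Q K be bo e)

end KS7_53.TM
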