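import Pool.Agent.KS7_53.TM.Corr

/-!
Kernel computations for the exponents `2^k + 1`, `4 ≤ k ≤ 10`.
-/

open PowerSeries

namespace KS7_53.TM

set_option maxRecDepth 1000000

/-- entry `i` of the window below `2^e` -/
def ent (s K e i : ℕ) : ℕ := (run (2 ^ s) K (be K (2 ^ s)) (bo K (2 ^ s)) e).getD i 0 % 2 ^ s

theorem dvd_of_ent {s K e i n : ℕ} (hK : K % 2 = 0) (hi : i < K) (hn : n + i + 1 = 2 ^ e)
    (h : ent s K e i = 0) : (2 : ℤ) ^ s ∣ coeff n (Q264.TMPow.TM ^ (K + 1)) := by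
  have h1 := coeff_run (Q := 2 ^ s) (by positivity) hK hi hn
  have h2 : (((run (2 ^ s) K (be K (2 ^ s)) (bo K (2 ^ s)) e).getD i 0 : ℕ) : ZMod (2 ^ s)) = 0 := by
    rw [ZMod.natCast_eq_zero_iff]; exact Nat.dvd_of_mod_eq_zero h
  rw [h2] at h1
  have h3 := (ZMod.intCast_zmod_eq_zero_iff_dvd _ _).1 h1.symm
  exact_mod_cast h3

theorem not_dvd_of_ent {s K e i n : ℕ} (hK : K % 2 = 0) (hi : i < K) (hn : n + i + 1 = 2 ^ e)
    (h : ent s K e i ≠ 0) : ¬ (2 : ℤ) ^ s ∣ coeff n (Q264.TMPow.TM ^ (K + 1)) := by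
  intro hd
  apply h
  have h1 := coeff_run (Q := 2 ^ s) (by positivity) hK hi hn
  have h3 : ((coeff n (Q264.TMPow.TM ^ (K + 1)) : ℤ) : ZMod (2 ^ s)) = 0 := by
    rw [ZMod.intCast_zmod_eq_zero_iff_dvd]; exact_mod_cast hd
  rw [h3, ZMod.natCast_eq_zero_iff] at h1
  exact Nat.mod_eq_zero_of_dvd h1

theorem c4 : ent 19 16 9 15 ≠ 0 ∧ ent 19 16 9 7 = 0 := by decide +kernel
theorem c5 : ent 24 32 11 27 ≠ 0 ∧ ent 24 32 11 31 = 0 := by decide +kernel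
theorem c6 : ent 53 64 20 63 ≠ 0 ∧ ent 53 64 20 55 = 0 := by decide +kernel
theorem c7 : ent 26 128 13 127 ≠ 0 ∧ ent 26 128 13 111 = 0 := by decide +kernel
theorem c8 : ent 11 256 10 255 ≠ 0 ∧ ent 11 256 10 223 = 0 := by decide +kernel
theorem c9 : ent 11 512 11 447 ≠ 0 ∧ ent 11 512 11 511 = 0 := by decide +kernel
theorem c10 : ent 11 1024 12 895 ≠ 0 ∧ ent 11 1024 12 1023 = 0 := by decide +kernel

end KS7_53.TM
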