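import Pool.Graph.R_pool_sql_team_seeded_3997aac3.Q264.TMPow
import Pool.Agent.KS7_53.TM.Alg

/-!
Window recursion for the coefficients of the powers of the Thue-Morse product: correctness.
-/

open PowerSeries Finset Q264.TMPow

namespace KS7_53.TM

/-- the coefficient with index `M - 1 - i` -/
noncomputable def W (K : ℕ) (M : ℤ) (i : ℕ) : ℤ := ext0 (Q264.TMPow.TM ^ (K + 1)) (M - ((i : ℕ) + 1))

theorem getD_drop (u : List ℕ) (s t : ℕ) : (u.drop s).getD t 0 = u.getD (s + t) 0 := by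
  simp [List.getD_eq_getElem?_getD, List.getElem?_drop]

theorem dot_eq : ∀ (a b : List ℕ) (n : ℕ), b.length ≤ n →
    dot a b = ∑ t ∈ range n, a.getD t 0 * b.getD t 0
  | [], b, n, _ => by simp [dot]
  | a :: as, [], n, _ => by simp [dot]
  | a :: as, b :: bs, 0, h => by simp at h
  | a :: as, b :: bs, n + 1, h => by
    rw [dot, Finset.sum_range_succ', dot_eq as bs n (by simpa using h)]
    simp [add_comm]

theorem go_length (Q : ℕ) (be bo : List ℕ) : ∀ (r : ℕ) (u : List ℕ), (go Q be bo r u).length = 2 * r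
  | 0, u => by simp [go]
  | r + 1, u => by rw [go]; simp [go_length Q be bo r u.tail]; ring

theorem go_even (Q : ℕ) (be bo : List ℕ) : ∀ (r : ℕ) (u : List ℕ) (s : ℕ), s < r →
    (go Q be bo r u).getD (2 * s) 0 = Q - dot bo (u.drop s) % Q
  | 0, u, s, h => by omega
  | r + 1, u, 0, h => by simp [go]
  | r + 1, u, s + 1, h => by
    rw [go, show 2 * (s + 1) = 2 * s + 1 + 1 by ring]
    simp only [List.getD_cons_succ]
    rw [go_even Q be bo r u.tail s (by omega)]
    simp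

theorem go_odd (Q : ℕ) (be bo : List ℕ) : ∀ (r : ℕ) (u : List ℕ) (s : ℕ), s < r →
    (go Q be bo r u).getD (2 * s + 1) 0 = dot be (u.drop s) % Q
  | 0, u, s, h => by omega
  | r + 1, u, 0, h => by simp [go]
  | r + 1, u, s + 1, h => by
    rw [go, show 2 * (s + 1) + 1 = 2 * s + 1 + 1 + 1 by ring]
    simp only [List.getD_cons_succ]
    rw [go_odd Q be bo r u.tail s (by omega)]
    simp

theorem bl_getD (n : ℕ) : ∀ (len j c t : ℕ), c = n.choose j →
    (bl n len j c).getD t 0 = if t < len then n.choose (j + t) else 0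
  | 0, j, c, t, _ => by simp [bl]
  | len + 1, j, c, 0, h => by simp [bl, h]
  | len + 1, j, c, t + 1, h => by
    rw [bl, List.getD_cons_succ, bl_getD n len (j + 1) _ t]
    · simp only [Nat.add_lt_add_iff_right]
      rw [show j + 1 + t = j + (t + 1) by ring]
    · rw [h, ← Nat.choose_succ_right_eq]
      exact Nat.mul_div_cancel _ (by omega)

theorem bl_all (n t : ℕ) : (bl n (n + 1) 0 1).getD t 0 = n.choose t := by
  rw [bl_getD n (n + 1) 0 1 t (by simp)]
  split_ifs with h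
  · rw [zero_add]
  · rw [Nat.choose_eq_zero_of_lt (by omega)]

theorem evens_getD : ∀ (l : List ℕ) (t : ℕ), (evens l).getD t 0 = l.getD (2 * t) 0
  | [], t => by simp [evens]
  | [a], 0 => by simp [evens]
  | [a], t + 1 => by
    rw [evens, show 2 * (t + 1) = 2 * t + 1 + 1 by ring]; simp
  | a :: b :: l, 0 => by simp [evens]
  | a :: b :: l, t + 1 => by
    rw [evens, show 2 * (t + 1) = 2 * t + 1 + 1 by ring]
    simp only [List.getD_cons_succ]
    exact evens_getD l t

theorem odds_getD : ∀ (l : List ℕ) (t : ℕ), (odds l).getD t 0 = l.getD (2 * t + 1) 0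
  | [], t => by simp [odds]
  | [a], t => by simp [odds]
  | a :: b :: l, 0 => by simp [odds]
  | a :: b :: l, t + 1 => by
    rw [odds, show 2 * (t + 1) + 1 = 2 * t + 1 + 1 + 1 by ring]
    simp only [List.getD_cons_succ]
    exact odds_getD l t

/-- binomial coefficients with even index, modulo `Q` -/
def be (K Q : ℕ) : List ℕ := (evens (bl (K + 1) (K + 2) 0 1)).map (· % Q)

/-- binomial coefficients with odd index, modulo `Q` -/
def bo (K Q : ℕ) : List ℕ := (odds (bl (K + 1) (K + 2) 0 1)).map (· % Q)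

theorem map_mod_getD (Q : ℕ) (l : List ℕ) (t : ℕ) :
    (l.map (· % Q)).getD t 0 = l.getD t 0 % Q := by
  rw [List.getD_eq_getElem?_getD, List.getD_eq_getElem?_getD, List.getElem?_map]
  cases l[t]? <;> simp

theorem be_getD (K Q t : ℕ) : (((be K Q).getD t 0 : ℕ) : ZMod Q) = (((K + 1).choose (2 * t) : ℕ) : ZMod Q) := by
  rw [be, map_mod_getD, evens_getD, bl_all]
  simp

theorem bo_getD (K Q t : ℕ) :
    (((bo K Q).getD t 0 : ℕ) : ZMod Q) = (((K + 1).choose (2 * t + 1) : ℕ) : ZMod Q) := by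
  rw [bo, map_mod_getD, odds_getD, bl_all]
  simp

theorem W_even (K : ℕ) (M : ℤ) (s : ℕ) (hs : 2 * s < K) :
    W K (2 * M) (2 * s) = - ∑ t ∈ range (K - s), ((K + 1).choose (2 * t + 1) : ℤ) * W K M (s + t) := by
  have h := congrFun (win_two K M) ⟨2 * s, hs⟩
  unfold Matrix.mulVec dotProduct B win at h
  unfold W
  rw [h, Fin.sum_univ_eq_sum_range (fun l => (if 2 * s ≤ 2 * l + 1 then (-1 : ℤ) ^ (2 * s + 1) *
    ((K + 1).choose (2 * l + 1 - 2 * s) : ℤ) else 0) *
      ext0 (Q264.TMPow.TM ^ (K + 1)) (M - ((l : ℕ) + 1))) K]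
  have e : range K = range (s + (K - s)) := by congr 1; omega
  rw [e, Finset.sum_range_add, ← Finset.sum_neg_distrib]
  have z : ∑ x ∈ range s, (if 2 * s ≤ 2 * x + 1 then (-1 : ℤ) ^ (2 * s + 1) *
    ((K + 1).choose (2 * x + 1 - 2 * s) : ℤ) else 0) *
      ext0 (Q264.TMPow.TM ^ (K + 1)) (M - ((x : ℕ) + 1)) = 0 := by
    refine Finset.sum_eq_zero fun x hx => ?_
    have := Finset.mem_range.1 hx
    rw [if_neg (by omega), zero_mul]
  rw [z, zero_add]
  refine Finset.sum_congr rfl fun x _ => ?_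
  rw [if_pos (by omega), show 2 * (s + x) + 1 - 2 * s = 2 * x + 1 by omega,
    Odd.neg_one_pow ⟨s, rfl⟩]
  ring

theorem W_odd (K : ℕ) (M : ℤ) (s : ℕ) (hs : 2 * s + 1 < K) :
    W K (2 * M) (2 * s + 1) = ∑ t ∈ range (K - s), ((K + 1).choose (2 * t) : ℤ) * W K M (s + t) := by
  have h := congrFun (win_two K M) ⟨2 * s + 1, hs⟩
  unfold Matrix.mulVec dotProduct B win at h
  unfold W
  rw [h, Fin.sum_univ_eq_sum_range (fun l => (if 2 * s + 1 ≤ 2 * l + 1 then (-1 : ℤ) ^ (2 * s + 1 + 1) *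
    ((K + 1).choose (2 * l + 1 - (2 * s + 1)) : ℤ) else 0) *
      ext0 (Q264.TMPow.TM ^ (K + 1)) (M - ((l : ℕ) + 1))) K]
  have e : range K = range (s + (K - s)) := by congr 1; omega
  rw [e, Finset.sum_range_add]
  have z : ∑ x ∈ range s, (if 2 * s + 1 ≤ 2 * x + 1 then (-1 : ℤ) ^ (2 * s + 1 + 1) *
    ((K + 1).choose (2 * x + 1 - (2 * s + 1)) : ℤ) else 0) *
      ext0 (Q264.TMPow.TM ^ (K + 1)) (M - ((x : ℕ) + 1)) = 0 := by
    refine Finset.sum_eq_zero fun x hx => ?_
    have := Finset.mem_range.1 hx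
    rw [if_neg (by omega), zero_mul]
  rw [z, zero_add]
  refine Finset.sum_congr rfl fun x _ => ?_
  rw [if_pos (by omega), show 2 * (s + x) + 1 - (2 * s + 1) = 2 * x by omega,
    Even.neg_one_pow ⟨s + 1, by ring⟩]
  ring

/-- the list `u` contains the window modulo `Q` -/
def Rep (Q K : ℕ) (M : ℤ) (u : List ℕ) : Prop :=
  u.length ≤ K ∧ ∀ i : ℕ, i < K → ((u.getD i 0 : ℕ) : ZMod Q) = ((W K M i : ℤ) : ZMod Q)

theorem rep_step {Q K : ℕ} (hQ : 0 < Q) (hK : K % 2 = 0) {M : ℤ} {u : List ℕ} {r : ℕ}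
    (h : Rep Q K M u) (hr : r ≤ K / 2) (hr2 : K / 2 ≤ r ∨ u.length ≤ r) :
    Rep Q K (2 * M) (go Q (be K Q) (bo K Q) r u) := by
  obtain ⟨hl, hu⟩ := h
  refine ⟨by rw [go_length]; omega, fun i hi => ?_⟩
  have hdot : ∀ (l : List ℕ) (s : ℕ), s < K / 2 → ((dot l (u.drop s) : ℕ) : ZMod Q) =
      ∑ t ∈ range (K - s), ((l.getD t 0 : ℕ) : ZMod Q) * ((W K M (s + t) : ℤ) : ZMod Q) := by
    intro l s hs
    rw [dot_eq l (u.drop s) (K - s) (by rw [List.length_drop]; omega)]
    push_cast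
    refine Finset.sum_congr rfl fun t ht => ?_
    have := Finset.mem_range.1 ht
    rw [getD_drop, hu (s + t) (by omega)]
  obtain ⟨s, hs | hs⟩ := Nat.even_or_odd' i
  · subst hs
    rw [W_even K M s hi]
    have key : (((Q - dot (bo K Q) (u.drop s) % Q : ℕ)) : ZMod Q) =
        - ((dot (bo K Q) (u.drop s) : ℕ) : ZMod Q) := by
      rw [Nat.cast_sub (Nat.mod_lt _ hQ).le]
      simp
    have hsum : - ((dot (bo K Q) (u.drop s) : ℕ) : ZMod Q) =
        (((- ∑ t ∈ range (K - s), ((K + 1).choose (2 * t + 1) : ℤ) * W K M (s + t) : ℤ)) : ZMod Q) := by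
      rw [hdot _ s (by omega)]
      push_cast
      congr 1
      refine Finset.sum_congr rfl fun t _ => ?_
      rw [bo_getD]
    by_cases hsr : s < r
    · rw [go_even _ _ _ _ _ _ hsr, key, hsum]
    · have hul : u.length ≤ s := by omega
      have hd : u.drop s = [] := List.drop_eq_nil_of_le hul
      have h0 : (go Q (be K Q) (bo K Q) r u).getD (2 * s) 0 = 0 := by
        rw [List.getD_eq_default _ _ (by rw [go_length]; omega)]
      rw [h0, ← hsum, hd]
      cases hbo : bo K Q <;> simp [dot]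
  · subst hs
    rw [W_odd K M s hi]
    have hsum : ((dot (be K Q) (u.drop s) : ℕ) : ZMod Q) =
        (((∑ t ∈ range (K - s), ((K + 1).choose (2 * t) : ℤ) * W K M (s + t) : ℤ)) : ZMod Q) := by
      rw [hdot _ s (by omega)]
      push_cast
      refine Finset.sum_congr rfl fun t _ => ?_
      rw [be_getD]
    by_cases hsr : s < r
    · rw [go_odd _ _ _ _ _ _ hsr, ← hsum]
      simp
    · have hul : u.length ≤ s := by omega
      have hd : u.drop s = [] := List.drop_eq_nil_of_le hul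
      have h0 : (go Q (be K Q) (bo K Q) r u).getD (2 * s + 1) 0 = 0 := by
        rw [List.getD_eq_default _ _ (by rw [go_length]; omega)]
      rw [h0, ← hsum, hd]
      cases hbe : be K Q <;> simp [dot]

theorem run_length (Q K : ℕ) : ∀ e, (run Q K (be K Q) (bo K Q) e).length ≤ 2 ^ e
  | 0 => by simp [run]
  | e + 1 => by
    rw [run, go_length, pow_succ]
    have := min_le_right (K / 2) (2 ^ e)
    omega

theorem rep_run {Q K : ℕ} (hQ : 0 < Q) (hK : K % 2 = 0) (hK0 : 1 ≤ K) :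
    ∀ e : ℕ, Rep Q K (2 ^ e) (run Q K (be K Q) (bo K Q) e)
  | 0 => by
    refine ⟨by simp [run, hK0], fun i _ => ?_⟩
    rw [run, W]
    rcases Nat.eq_zero_or_pos i with h | h
    · subst h
      have : ext0 (Q264.TMPow.TM ^ (K + 1)) ((2 : ℤ) ^ 0 - (((0 : ℕ) : ℤ) + 1)) = 1 := by
        rw [show (2 : ℤ) ^ 0 - (((0 : ℕ) : ℤ) + 1) = ((0 : ℕ) : ℤ) by norm_num, ext0_nat, TM_pow]
        unfold PT
        simp
      rw [this]; simp
    · have : ext0 (Q264.TMPow.TM ^ (K + 1)) ((2 : ℤ) ^ 0 - ((i : ℤ) + 1)) = 0 := by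
        unfold ext0
        rw [if_neg (by push_cast; omega)]
      rw [this]
      obtain ⟨j, rfl⟩ : ∃ j, i = j + 1 := ⟨i - 1, by omega⟩
      simp
  | e + 1 => by
    rw [run, pow_succ, mul_comm]
    refine rep_step hQ hK (rep_run hQ hK hK0 e) (min_le_left _ _) ?_
    rcases le_total (K / 2) (2 ^ e) with h | h
    · left; rw [min_eq_left h]
    · right; rw [min_eq_right h]; exact run_length Q K e

/-- The coefficient with index `2^e - 1 - i`, modulo `Q`. -/
theorem coeff_run {Q K : ℕ} (hQ : 0 < Q) (hK : K % 2 = 0) {e i n : ℕ} (hi : i < K)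
    (hn : n + i + 1 = 2 ^ e) :
    (((run Q K (be K Q) (bo K Q) e).getD i 0 : ℕ) : ZMod Q) =
      ((coeff n (Q264.TMPow.TM ^ (K + 1)) : ℤ) : ZMod Q) := by
  rw [(rep_run hQ hK (by omega) e).2 i hi, W]
  have : (2 : ℤ) ^ e - ((i : ℤ) + 1) = ((n : ℕ) : ℤ) := by
    have : ((n + i + 1 : ℕ) : ℤ) = 2 ^ e := by rw [hn]; push_cast; rfl
    push_cast at this
    linear_combination -this
  rw [this, ext0_nat]

end KS7_53.TM
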