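import Pool.Graph.R_pool_sql_team_seeded_3997aac3.Q264.TMPow

/-!
The coefficients of the powers `2^k + 1` of the Thue-Morse product: passage from `k` to `k + 1`.
-/

open PowerSeries Finset Q264.TMPow

namespace KS7_53.TM

theorem two_dvd_of_map {g : PowerSeries ℤ}
    (h : PowerSeries.map (Int.castRingHom (ZMod 2)) g = 0) : (2 : PowerSeries ℤ) ∣ g := by
  have h1 : ∀ n, (2 : ℤ) ∣ coeff n g := by
    intro n
    have h2 := congrArg (coeff n) h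
    rw [coeff_map, map_zero] at h2
    exact (ZMod.intCast_zmod_eq_zero_iff_dvd _ 2).1 (by simpa using h2)
  choose U hU using h1
  refine ⟨PowerSeries.mk U, ?_⟩
  ext n
  rw [show (2 : PowerSeries ℤ) = C (2 : ℤ) from (map_ofNat C 2).symm, coeff_C_mul, coeff_mk, hU]

theorem TM_sq : (2 : PowerSeries ℤ) ∣ Q264.TMPow.TM ^ 2 - E2 Q264.TMPow.TM := by
  apply two_dvd_of_map
  rw [map_sub, map_pow, E2, map_expand, sub_eq_zero]
  exact T2_sq

theorem pow_cong (k : ℕ) : ((2 : ℕ) : PowerSeries ℤ) ^ (k + 1) ∣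
    Q264.TMPow.TM ^ (2 ^ (k + 1) + 1) - (1 - X) * E2 (Q264.TMPow.TM ^ (2 ^ k + 1)) := by
  have h := dvd_sub_pow_of_dvd_sub (p := 2) (a := Q264.TMPow.TM ^ 2) (b := E2 Q264.TMPow.TM)
    (by exact_mod_cast TM_sq) k
  have e1 : Q264.TMPow.TM ^ (2 ^ (k + 1) + 1) = Q264.TMPow.TM * (Q264.TMPow.TM ^ 2) ^ 2 ^ k := by
    rw [← pow_mul, pow_succ, mul_comm, show 2 * 2 ^ k = 2 ^ (k + 1) by rw [pow_succ, mul_comm]]
  have e2 : (1 - X) * E2 (Q264.TMPow.TM ^ (2 ^ k + 1)) =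
      Q264.TMPow.TM * (E2 Q264.TMPow.TM) ^ 2 ^ k := by
    have h1 : Q264.TMPow.TM * (E2 Q264.TMPow.TM) ^ 2 ^ k =
        (1 - X) * E2 Q264.TMPow.TM * (E2 Q264.TMPow.TM) ^ 2 ^ k := by
      rw [← TM_eq]
    rw [h1, E2, map_pow, pow_succ]
    ring
  rw [e1, e2, ← mul_sub]
  exact Dvd.dvd.mul_left h _

theorem coeff_even (g : PowerSeries ℤ) (n : ℕ) : coeff (2 * n) ((1 - X) * E2 g) = coeff n g := by
  rw [sub_mul, one_mul, map_sub, E2, coeff_expand, if_pos (Dvd.intro n rfl),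
    Nat.mul_div_cancel_left _ (by norm_num)]
  have : coeff (2 * n) (X * expand 2 (by norm_num) g) = 0 := by
    rcases Nat.eq_zero_or_pos n with h | h
    · subst h; simp
    · obtain ⟨m, hm⟩ : ∃ m, 2 * n = m + 1 := ⟨2 * n - 1, by omega⟩
      rw [hm, coeff_succ_X_mul, coeff_expand, if_neg (by omega)]
  rw [this, sub_zero]

theorem dvd_coeff {k : ℕ} {f : PowerSeries ℤ} (h : ((2 : ℕ) : PowerSeries ℤ) ^ k ∣ f) (n : ℕ) :
    (2 : ℤ) ^ k ∣ coeff n f := by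
  obtain ⟨g, rfl⟩ := h
  have : ((2 : ℕ) : PowerSeries ℤ) ^ k = C ((2 : ℤ) ^ k) := by
    rw [map_pow]; congr 1
  rw [this, coeff_C_mul]
  exact dvd_mul_right _ _

/-- `t_{2^(k+1)+1}(2 n) = t_{2^k+1}(n)` modulo `2^(k+1)`. -/
theorem step_cong (k n : ℕ) : (2 : ℤ) ^ (k + 1) ∣
    coeff (2 * n) (Q264.TMPow.TM ^ (2 ^ (k + 1) + 1)) - coeff n (Q264.TMPow.TM ^ (2 ^ k + 1)) := by
  have h := dvd_coeff (pow_cong k) (2 * n)
  rwa [map_sub, coeff_even] at h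

/-- For `d ≥ 0`: `t_{2^(10+d)+1}(2^d n) = t_{1025}(n)` modulo `2^11`. -/
theorem stable (d n : ℕ) : (2 : ℤ) ^ 11 ∣
    coeff (2 ^ d * n) (Q264.TMPow.TM ^ (2 ^ (10 + d) + 1)) -
      coeff n (Q264.TMPow.TM ^ (2 ^ 10 + 1)) := by
  induction d with
  | zero => simp
  | succ d ih =>
    have h := step_cong (10 + d) (2 ^ d * n)
    have h2 : (2 : ℤ) ^ 11 ∣ coeff (2 * (2 ^ d * n)) (Q264.TMPow.TM ^ (2 ^ (10 + d + 1) + 1)) -
        coeff (2 ^ d * n) (Q264.TMPow.TM ^ (2 ^ (10 + d) + 1)) :=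
      (pow_dvd_pow _ (by omega)).trans h
    have h3 := dvd_add h2 ih
    rw [sub_add_sub_cancel, ← mul_assoc, mul_comm 2, ← pow_succ] at h3
    exact h3

end KS7_53.TM
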